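import Pool.Agent.Helper52.SM.Goals
import Pool.Agent.Helper12.SX.CNV

/-!
# SM-TUP: the tuple of an algorithm
-/

namespace Pool.Agent.Helper34.SM

open Pool.Agent.Helper78.DT Pool.Agent.Helper65.CS Pool.Agent.Helper52.SX Pool.Agent.Helper52.SM
open Pool.Agent.Helper12.SX (ixv_append ixv_lt ixv_all ixv_not)
open Pool.Agent.Helper78

/-- The digits of the index. -/
theorem testBit_ixv {n : ℕ} (y : Fin n → Bool) (g : ℕ → DList) :
    ∀ (L : List ℕ) (j : ℕ) (h : j < L.length),
      (ixv y (L.map g)).testBit j = DList.val y (g (L[j]'h))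
  | [], j, h => by simp at h
  | a :: L, 0, h => by
    simp only [List.map_cons, ixv, List.getElem_cons_zero, Nat.testBit_zero]
    by_cases hv : DList.val y (g a) = true
    · rw [if_pos hv, hv]
      simp
    · rw [if_neg hv]
      have hv' : DList.val y (g a) = false := by simpa using hv
      rw [hv']
      simp
  | a :: L, j + 1, h => by
    have ih := testBit_ixv y g L j (by simpa using h)
    simp only [List.map_cons, ixv, List.getElem_cons_succ, Nat.testBit_succ]
    rw [← ih]
    congr 1
    split_ifs <;> omega

/-- The tuple. -/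
def tup0 (A : PM.Machine) (x : List Bool) (V O : ℕ → DList) : Tup :=
  ((List.range (A.r x)).map V ++ (List.range (A.r x)).map O,
    List.replicate (4 ^ A.r x - 2 ^ A.r x) false ++ (List.range (2 ^ A.r x)).map fun q =>
      A.out (x, (List.range (A.r x)).map fun j => q.testBit j))

theorem tup_all (A : PM.Machine) (x : List Bool) (V O : ℕ → DList) {n : ℕ} (y : Fin n → Bool)
    (h : ∀ j < A.r x, DList.val y (O j) = true) :
    tv y (tup0 A x V O) = A.out (x, (List.range (A.r x)).map fun j => DList.val y (V j)) := by
  have h2 : ixv y ((List.range (A.r x)).map O) + 1 = 2 ^ A.r x := by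
    have := ixv_all y ((List.range (A.r x)).map O) (by
      intro F hF
      obtain ⟨j, hj, rfl⟩ := List.mem_map.1 hF
      exact h j (List.mem_range.1 hj))
    simpa using this
  have h1 : ixv y ((List.range (A.r x)).map V) < 2 ^ A.r x := by
    have := ixv_lt y ((List.range (A.r x)).map V)
    simpa using this
  have h3 : (4 : ℕ) ^ A.r x = 2 ^ A.r x * 2 ^ A.r x := by
    rw [← mul_pow]; norm_num
  have h4 : ixv y ((List.range (A.r x)).map V ++ (List.range (A.r x)).map O) =
      (4 ^ A.r x - 2 ^ A.r x) + ixv y ((List.range (A.r x)).map V) := by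
    rw [ixv_append, List.length_map, List.length_range, h3]
    have h5 : ixv y ((List.range (A.r x)).map O) = 2 ^ A.r x - 1 := by omega
    rw [h5, Nat.mul_sub, mul_one]
    omega
  unfold tv tup0
  simp only [h4]
  rw [List.getD_append_right _ _ _ _ (by simp), List.length_replicate, Nat.add_sub_cancel_left,
    List.getD_eq_getElem _ _ (by simpa using h1)]
  simp only [List.getElem_map, List.getElem_range]
  congr 2
  refine List.map_congr_left fun j hj => ?_
  have hj' := List.mem_range.1 hj
  have := testBit_ixv y V (List.range (A.r x)) j (by simpa using hj')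
  simpa using this

theorem tup_not (A : PM.Machine) (x : List Bool) (V O : ℕ → DList) {n : ℕ} (y : Fin n → Bool)
    (h : ∃ j < A.r x, DList.val y (O j) = false) :
    tv y (tup0 A x V O) = false := by
  obtain ⟨j, hj, hv⟩ := h
  have h2 : ixv y ((List.range (A.r x)).map O) + 2 ≤ 2 ^ A.r x := by
    have := ixv_not y ((List.range (A.r x)).map O)
      ⟨_, List.mem_map.2 ⟨j, List.mem_range.2 hj, rfl⟩, hv⟩
    simpa using this
  have h1 : ixv y ((List.range (A.r x)).map V) < 2 ^ A.r x := by
    have := ixv_lt y ((List.range (A.r x)).map V)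
    simpa using this
  have h3 : (4 : ℕ) ^ A.r x = 2 ^ A.r x * 2 ^ A.r x := by
    rw [← mul_pow]; norm_num
  have h4 : ixv y ((List.range (A.r x)).map V ++ (List.range (A.r x)).map O) <
      4 ^ A.r x - 2 ^ A.r x := by
    rw [ixv_append, List.length_map, List.length_range, h3]
    have h5 : 2 ^ A.r x * (ixv y ((List.range (A.r x)).map O) + 2) ≤
      2 ^ A.r x * 2 ^ A.r x := Nat.mul_le_mul_left _ h2
    rw [mul_add] at h5
    omega
  unfold tv tup0
  rw [List.getD_append _ _ _ _ (by simpa using h4)]
  rw [List.getD_eq_getElem _ _ (by simpa using h4)]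
  simp

/-- **TUP.** -/
theorem tup (hT : ThrStmt) : TupStmt := by
  intro A c x s ε l hs hlt hε hl
  choose V O hV hO hVl hOl hval hpr using fun j : ℕ =>
    hT (fun z => A.act (j, z)) c x (A.m x) (A.T x) s ε hs hlt hε
  refine ⟨tup0 A x V O, ?_, ?_, ?_, ?_⟩
  · intro F hF
    rcases List.mem_append.1 hF with hF | hF
    · obtain ⟨j, _, rfl⟩ := List.mem_map.1 hF
      exact ⟨hV j, by exact_mod_cast (hVl j).trans hl⟩
    · obtain ⟨j, _, rfl⟩ := List.mem_map.1 hF
      exact ⟨hO j, by exact_mod_cast (hOl j).trans hl⟩
  · simp only [tup0, List.length_append, List.length_map, List.length_range]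
    ring
  · intro y hy
    by_cases h : ∀ j < A.r x, DList.val y (O j) = true
    · rw [tup_all A x V O y h] at hy
      rw [← hy]
      unfold PM.results
      congr 2
      exact List.map_congr_left fun j hj => (hval j y (h j (List.mem_range.1 hj))).symm
    · push Not at h
      obtain ⟨j, hj, hv⟩ := h
      rw [tup_not A x V O y ⟨j, hj, by simpa using hv⟩] at hy
      exact absurd hy (by simp)
  · have hf : fract (A.m x) (tup0 A x V O) =
        pr fun y : Fin (A.m x) → Bool => tv y (tup0 A x V O) = true := by
      rw [pr_eq_card, fract]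
      have hc : (Fintype.card (Fin (A.m x) → Bool) : ℝ) = 2 ^ A.m x := by
        simp
      rw [hc]
    rw [hf]
    unfold phi
    refine (pr_le_add_of_imp (E' := fun y : Fin (A.m x) → Bool => tv y (tup0 A x V O) = true)
      (B := fun y : Fin (A.m x) → Bool =>
        ∃ j ∈ Finset.range (A.r x), DList.val y (O j) = false) fun y hy => ?_).trans ?_
    · by_cases h : ∀ j < A.r x, DList.val y (O j) = true
      · left
        show tv y (tup0 A x V O) = true
        rw [tup_all A x V O y h, ← hy]
        unfold PM.results
        congr 2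
        exact List.map_congr_left fun j hj => hval j y (h j (List.mem_range.1 hj))
      · right
        push Not at h
        obtain ⟨j, hj, hv⟩ := h
        exact ⟨j, Finset.mem_range.2 hj, by simpa using hv⟩
    · refine add_le_add le_rfl ((pr_exists_le (Finset.range (A.r x))
        (fun j (y : Fin (A.m x) → Bool) => DList.val y (O j) = false)).trans ?_)
      refine (Finset.sum_le_card_nsmul _ _ _ fun j _ => hpr j).trans ?_
      rw [Finset.card_range, nsmul_eq_mul]

end Pool.Agent.Helper34.SM
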